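import Pool.Agent.Helper24.TD.GenB

/-!
# Project TD, block B: the generic algebra
-/

set_option autoImplicit false

open Polynomial

namespace Pool.Agent.Helper24.TD

open Pool.Agent.Helper81.TD

variable {N : Type} [Group N] [Fintype N] [DecidableEq N] {R : Type} [CommRing R] [Algebra ℝ R]
variable {T : Subgroup N} {Sim : Set N} {q : N → ℕ} {c : N → N → N → ℝ}

/-- the generic left operator -/
noncomputable def Lv (q : N → ℕ) (c : N → N → N → ℝ) (v : R) (m : N) : Matrix N N R :=
  La R m + v • Lb q c R m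

/-- the generic right operator -/
noncomputable def Rv (q : N → ℕ) (c : N → N → N → ℝ) (v : R) (m : N) : Matrix N N R :=
  Ra R m + v • Rb q c R m

omit [Fintype N] in
theorem map_lb (m : N) : Lb q c R m = (Lb q c ℝ m).map (algebraMap ℝ R) := by
  classical
  ext r n
  rw [Matrix.map_apply, lb_apply]
  unfold Lb
  split_ifs
  · rfl
  · rw [map_zero]

omit [Fintype N] in
theorem map_rb (m : N) : Rb q c R m = (Rb q c ℝ m).map (algebraMap ℝ R) := by
  ext r n
  rw [Matrix.map_apply]
  unfold Rb
  rw [map_lb, Matrix.map_apply]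

theorem comm_bbR (h : HD T Sim q c) {m m' : N} (hm : m ∈ Sim) (hm' : m' ∈ Sim) :
    Lb q c R m * Rb q c R m' = Rb q c R m' * Lb q c R m := by
  rw [map_lb, map_rb, ← Matrix.map_mul, ← Matrix.map_mul, (comm_bb h hm hm').eq]

theorem comm_v (h : HD T Sim q c) (v : R) {m m' : N} (hm : m ∈ Sim) (hm' : m' ∈ Sim) :
    Commute (Lv q c v m) (Rv q c v m') := by
  have h1 := (comm_one (R := R) h hm hm').eq
  have h2 := (la_ra (R := R) m m').eq
  have h3 := comm_bbR (R := R) h hm hm'
  rw [add_mul, mul_add, mul_add, add_mul, mul_add, mul_add, h2, h3] at h1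
  change _ * _ = _ * _
  unfold Lv Rv
  rw [add_mul, mul_add, mul_add, add_mul, mul_add, mul_add, h2, smul_mul_smul_comm,
    smul_mul_smul_comm, h3, mul_smul_comm, smul_mul_assoc, mul_smul_comm, smul_mul_assoc]
  have h4 : La R m * Rb q c R m' + Lb q c R m * Ra R m' =
      Ra R m' * Lb q c R m + Rb q c R m' * La R m := by
    have h5 := sub_eq_zero.2 h1
    rw [← sub_eq_zero]
    rw [← h5]
    abel
  have h6 : v • (La R m * Rb q c R m') + v • (Lb q c R m * Ra R m') =
      v • (Ra R m' * Lb q c R m) + v • (Rb q c R m' * La R m) := by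
    rw [← smul_add, h4, smul_add]
  rw [← sub_eq_zero] at h6 ⊢
  rw [← h6]
  abel

theorem comm_lt (h : HD T Sim q c) (v : R) {t m' : N} (ht : t ∈ T) :
    Commute (La R t) (Rv q c v m') := by
  classical
  have h1 : La R t * Rb q c R m' = Rb q c R m' * La R t := by
    ext r n
    rw [Matrix.mul_apply, Matrix.mul_apply, Finset.sum_eq_single (t⁻¹ * r),
      Finset.sum_eq_single (t * n)]
    · have e1 : r = t * (t⁻¹ * r) := by group
      have e2 : Dn q m'⁻¹ (t * n)⁻¹ ↔ Dn q m'⁻¹ n⁻¹ := by
        rw [mul_inv_rev]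
        exact dn_tr h (T.inv_mem ht)
      have e3 : (t⁻¹ * r)⁻¹ * n⁻¹⁻¹ = r⁻¹ * (t * n)⁻¹⁻¹ := by group
      simp only [La, Rb, Lb]
      rw [if_pos e1, if_pos trivial, one_mul, mul_one, e3]
      by_cases hd : Dn q m'⁻¹ n⁻¹
      · rw [if_pos hd, if_pos (e2.2 hd)]
      · rw [if_neg hd, if_neg (fun e => hd (e2.1 e))]
    · intro s _ hs
      simp [La, hs]
    · intro e
      exact absurd (Finset.mem_univ _) e
    · intro s _ hs
      have : ¬ r = t * s := fun e => hs (by rw [e]; group)
      simp [La, this]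
    · intro e
      exact absurd (Finset.mem_univ _) e
  change _ * _ = _ * _
  unfold Rv
  rw [mul_add, add_mul, (la_ra t m').eq, mul_smul_comm, smul_mul_assoc, h1]

theorem comm_rt (h : HD T Sim q c) (v : R) {t m : N} (ht : t ∈ T) :
    Commute (Lv q c v m) (Ra R t) := by
  have h1 := (comm_lt (R := R) h v (m' := m⁻¹) (T.inv_mem ht)).eq
  have e1 : sh (La R t⁻¹) = Ra R t := sh_la t
  have e2 : sh (Rv q c v m⁻¹) = Lv q c v m := by
    ext r n
    simp only [sh, Rv, Lv, Matrix.add_apply, Matrix.smul_apply, Rb, inv_inv]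
    congr 1
    simp only [Ra, La]
    have e : (r⁻¹ = n⁻¹ * m⁻¹) = (r = m * n) := by
      rw [← mul_inv_rev, inv_inj]
    simp only [e]
  have h2 := congrArg sh h1
  rw [sh_mul, sh_mul, e1, e2] at h2
  exact h2.symm

/-- the generators of the right algebra -/
def GR (T : Subgroup N) (Sim : Set N) (q : N → ℕ) (c : N → N → N → ℝ) (v : R) :
    Set (Matrix N N R) :=
  {A | (∃ t ∈ T, A = Ra R t) ∨ ∃ m ∈ Sim, A = Rv q c v m}

/-- the commutant -/
def InC (T : Subgroup N) (Sim : Set N) (q : N → ℕ) (c : N → N → N → ℝ) (v : R)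
    (A : Matrix N N R) : Prop := ∀ B ∈ GR T Sim q c v, A * B = B * A

theorem inC_mul {v : R} {A B : Matrix N N R} (hA : InC T Sim q c v A) (hB : InC T Sim q c v B) :
    InC T Sim q c v (A * B) := by
  intro D hD
  rw [mul_assoc, hB D hD, ← mul_assoc, hA D hD, mul_assoc]

theorem inC_la (h : HD T Sim q c) (v : R) {t : N} (ht : t ∈ T) : InC T Sim q c v (La R t) := by
  rintro B (⟨t', -, rfl⟩ | ⟨m, -, rfl⟩)
  · exact (la_ra t t').eq
  · exact (comm_lt h v ht).eq

theorem inC_lv (h : HD T Sim q c) (v : R) {m : N} (hm : m ∈ Sim) :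
    InC T Sim q c v (Lv q c v m) := by
  rintro B (⟨t', ht', rfl⟩ | ⟨m', hm', rfl⟩)
  · exact (comm_rt h v ht').eq
  · exact (comm_v h v hm hm').eq

omit [Fintype N] in
theorem rv_up (v : R) {m n : N} (hd : ¬ Dn q m⁻¹ n⁻¹) (r : N) :
    Rv q c v m r n = if r = n * m then 1 else 0 := by
  simp only [Rv, Matrix.add_apply, Matrix.smul_apply, Rb, Lb]
  rw [if_neg hd, smul_zero, add_zero]
  rfl

omit [Fintype N] in
theorem lv_up (v : R) {m n : N} (hd : ¬ Dn q m n) (r : N) :
    Lv q c v m r n = if r = m * n then 1 else 0 := by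
  simp only [Lv, Matrix.add_apply, Matrix.smul_apply, Lb]
  rw [if_neg hd, smul_zero, add_zero]
  rfl

theorem exists_Q (h : HD T Sim q c) (v : R) (k : ℕ) : ∀ n : N, q n = k → ∃ Q : Matrix N N R,
    (∀ A, InC T Sim q c v A → A * Q = Q * A) ∧ ∀ r, Q r 1 = if r = n then 1 else 0 := by
  induction k using Nat.strong_induction_on with
  | _ k ih =>
    intro n hn
    by_cases hT : n ∈ T
    · refine ⟨Ra R n, fun A hA => hA _ (Or.inl ⟨n, hT, rfl⟩), fun r => ?_⟩
      simp [Ra]
    · have hT' : n⁻¹ ∉ T := fun e => hT (by simpa using T.inv_mem e)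
      obtain ⟨m, hm, h1⟩ := h.gen n⁻¹ hT'
      have e1 : q (m * n⁻¹) = q (n * m⁻¹) := by rw [← h.q_inv (n * m⁻¹), mul_inv_rev, inv_inv]
      rw [h.q_inv, e1] at h1
      have hx := h.q_sim m hm
      have hp := h.q_pos (n * m⁻¹)
      obtain ⟨Q, hQ, hQ1⟩ := ih (q (n * m⁻¹)) (by rw [← hn, h1]; nlinarith) (n * m⁻¹) rfl
      refine ⟨Rv q c v m * Q, fun A hA => ?_, fun r => ?_⟩
      · rw [← mul_assoc, hA _ (Or.inr ⟨m, hm, rfl⟩), mul_assoc, hQ A hA, ← mul_assoc]
      · rw [Matrix.mul_apply]
        simp only [hQ1, mul_ite, mul_one, mul_zero, Finset.sum_ite_eq', Finset.mem_univ, if_true]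
        have hd : ¬ Dn q m⁻¹ (n * m⁻¹)⁻¹ := by
          apply not_dn h (sim_inv h hm)
          rw [mul_inv_rev, inv_inv, inv_mul_cancel_left, h.q_inv, h.q_inv, e1]
          exact h1
        rw [rv_up v hd, inv_mul_cancel_right]

theorem exists_P (h : HD T Sim q c) (v : R) (k : ℕ) : ∀ n : N, q n = k → ∃ P : Matrix N N R,
    InC T Sim q c v P ∧ ∀ r, P r 1 = if r = n then 1 else 0 := by
  induction k using Nat.strong_induction_on with
  | _ k ih =>
    intro n hn
    by_cases hT : n ∈ T
    · refine ⟨La R n, inC_la h v hT, fun r => ?_⟩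
      simp [La]
    · obtain ⟨m, hm, h1⟩ := h.gen n hT
      have hx := h.q_sim m hm
      have hp := h.q_pos (m * n)
      obtain ⟨P, hP, hP1⟩ := ih (q (m * n)) (by rw [← hn, h1]; nlinarith) (m * n) rfl
      refine ⟨Lv q c v m⁻¹ * P, inC_mul (inC_lv h v (sim_inv h hm)) hP, fun r => ?_⟩
      rw [Matrix.mul_apply]
      simp only [hP1, mul_ite, mul_one, mul_zero, Finset.sum_ite_eq', Finset.mem_univ, if_true]
      have hd : ¬ Dn q m⁻¹ (m * n) := by
        apply not_dn h (sim_inv h hm)
        rw [inv_mul_cancel_left, h.q_inv]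
        exact h1
      rw [lv_up v hd, inv_mul_cancel_left]

theorem inC_uniq (h : HD T Sim q c) {v : R} {A B : Matrix N N R} (hA : InC T Sim q c v A)
    (hB : InC T Sim q c v B) (e : ∀ r, A r 1 = B r 1) : A = B := by
  ext r n
  obtain ⟨Q, hQ, hQ1⟩ := exists_Q h v (q n) n rfl
  have key : ∀ D : Matrix N N R, (D * Q) r 1 = D r n := by
    intro D
    rw [Matrix.mul_apply]
    simp only [hQ1, mul_ite, mul_one, mul_zero, Finset.sum_ite_eq', Finset.mem_univ, if_true]
  rw [← key A, ← key B, hQ A hA, hQ B hB, Matrix.mul_apply, Matrix.mul_apply]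
  exact Finset.sum_congr rfl fun s _ => by rw [e s]

/-! ### evaluation -/

theorem inC_map {R' : Type} [CommRing R'] [Algebra ℝ R'] (f : R →+* R')
    (hf : ∀ x : ℝ, f (algebraMap ℝ R x) = algebraMap ℝ R' x) {v : R} {A : Matrix N N R}
    (hA : InC T Sim q c v A) : InC T Sim q c (f v) (A.map f) := by
  classical
  have key : ∀ B : Matrix N N R, A * B = B * A → A.map f * B.map f = B.map f * A.map f := by
    intro B hB
    rw [← Matrix.map_mul, hB, Matrix.map_mul]
  rintro B (⟨t, ht, rfl⟩ | ⟨m, hm, rfl⟩)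
  · have e : Ra R' t = (Ra R t).map f := by
      ext r n
      simp only [Ra, Matrix.map_apply]
      split_ifs
      · rw [map_one]
      · rw [map_zero]
    rw [e]
    exact key _ (hA _ (Or.inl ⟨t, ht, rfl⟩))
  · have e : Rv q c (f v) m = (Rv q c v m).map f := by
      ext r n
      simp only [Rv, Ra, Rb, Lb, Matrix.map_apply, Matrix.add_apply, Matrix.smul_apply, smul_eq_mul,
        map_add, map_mul]
      congr 1
      · split_ifs
        · rw [map_one]
        · rw [map_zero]
      · congr 1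
        split_ifs
        · rw [hf]
        · rw [map_zero]
    rw [e]
    exact key _ (hA _ (Or.inr ⟨m, hm, rfl⟩))

/-- left multiplication with `T_a` -/
noncomputable def Lam (c : N → N → N → ℝ) (R : Type) [CommRing R] [Algebra ℝ R] (a : N) :
    Matrix N N R := fun r n => algebraMap ℝ R (c a n r)

/-- transport with an automorphism -/
def cjA (α : MulAut N) (A : Matrix N N R) : Matrix N N R := fun r n => A (α r) (α n)

/-- left multiplications commute with the right operators at `v = 1` -/
theorem inC_one (h : HD T Sim q c) (a : N) :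
    InC T Sim q c (1 : R) (Lam c R a) := by
  have key : ∀ (y : N) (B : Matrix N N R), (∀ r n, B r n = algebraMap ℝ R (c n y r)) →
      Lam c R a * B = B * Lam c R a := by
    intro y B hB
    ext r n
    rw [Matrix.mul_apply, Matrix.mul_apply]
    simp only [Lam, hB, ← map_mul, ← map_sum]
    congr 1
    have := h.asc a n y r
    rw [Finset.sum_congr rfl fun s _ => mul_comm (c a s r) (c n y s), ← this]
    exact Finset.sum_congr rfl fun s _ => mul_comm _ _
  rintro B (⟨t, ht, rfl⟩ | ⟨m, hm, rfl⟩)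
  · refine key t _ fun r n => ?_
    rw [(h.ttr t ht n r).2]
    simp only [Ra]
    split_ifs
    · rw [map_one]
    · rw [map_zero]
  · refine key m _ fun r n => ?_
    rw [← rho_eq h hm r n, Rv, one_smul]

theorem inC_zero (a : N) : InC T Sim q c (0 : R) (La R a) := by
  rintro B (⟨t, ht, rfl⟩ | ⟨m, hm, rfl⟩)
  · exact (la_ra a t).eq
  · rw [Rv, zero_smul, add_zero]
    exact (la_ra a m).eq

/-! ### automorphisms -/

theorem q_one_lt (h : HD T Sim q c) (k : ℕ) : ∀ n : N, q n = k → n ∉ T → q 1 < q n := by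
  induction k using Nat.strong_induction_on with
  | _ k ih =>
    intro n hn hT
    obtain ⟨m, hm, h1⟩ := h.gen n hT
    have hx := h.q_sim m hm
    have hp := h.q_pos (m * n)
    have h2 : q (m * n) < q n := by
      rw [h1]
      nlinarith
    by_cases h3 : m * n ∈ T
    · have h4 : q (m * n) = q 1 := by
        have := (h.q_mul _ h3 1).1
        rwa [mul_one] at this
      omega
    · have := ih (q (m * n)) (by omega) (m * n) rfl h3
      omega

theorem aut_T (h : HD T Sim q c) {α : MulAut N} (hα : ∀ n, q (α n) = q n) {t : N} (ht : t ∈ T) :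
    α t ∈ T := by
  by_contra hc
  have h1 := q_one_lt h (q (α t)) (α t) rfl hc
  rw [hα] at h1
  have h2 := (h.q_mul t ht 1).1
  rw [mul_one] at h2
  omega

theorem inC_aut (h : HD T Sim q c) {α : MulAut N} (hα : α ∈ AutHD Sim q c) {v : R}
    {A : Matrix N N R} (hA : InC T Sim q c v A) :
    InC T Sim q c v (cjA α A) := by
  classical
  obtain ⟨h1, h2, h3⟩ := hα
  have key : ∀ B B' : Matrix N N R, A * B' = B' * A → (∀ r n, B r n = B' (α r) (α n)) →
      cjA α A * B = B * cjA α A := by
    intro B B' hB hBB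
    ext r n
    have h4 := congrFun (congrFun hB (α r)) (α n)
    rw [Matrix.mul_apply, Matrix.mul_apply, ← Equiv.sum_comp α.toEquiv,
      ← Equiv.sum_comp α.toEquiv (fun s => B' (α r) s * A s (α n))] at h4
    rw [Matrix.mul_apply, Matrix.mul_apply]
    simp only [hBB, cjA]
    exact h4
  have hdn : ∀ m n, Dn q (α m) (α n) ↔ Dn q m n := by
    intro m n
    unfold Dn
    rw [← map_mul, h2, h2, h2]
  have hbb : ∀ m k, bb q c (α m) (α k) = bb q c m k := by
    intro m k
    unfold bb
    by_cases e : k = m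
    · rw [if_pos e, if_pos (by rw [e]), h2]
    · rw [if_neg e, if_neg (fun e' => e (α.injective e'))]
      have := h3 m m⁻¹ (k * m⁻¹)
      rw [map_inv, map_mul, map_inv] at this
      exact this
  rintro B (⟨t, ht, rfl⟩ | ⟨m, hm, rfl⟩)
  · refine key _ (Ra R (α t)) (hA _ (Or.inl ⟨α t, aut_T h h2 ht, rfl⟩)) fun r n => ?_
    simp only [Ra]
    by_cases e : r = n * t
    · rw [if_pos e, if_pos (by rw [e, map_mul])]
    · rw [if_neg e, if_neg (fun e' => e (α.injective (by rw [e', map_mul])))]
  · refine key _ (Rv q c v (α m)) (hA _ (Or.inr ⟨α m, (h1 m).2 hm, rfl⟩)) fun r n => ?_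
    have e1 : Ra R (α m) (α r) (α n) = Ra R m r n := by
      simp only [Ra]
      by_cases e : r = n * m
      · rw [if_pos e, if_pos (by rw [e, map_mul])]
      · rw [if_neg e, if_neg (fun e' => e (α.injective (by rw [e', map_mul])))]
    have e2 : Rb q c R (α m) (α r) (α n) = Rb q c R m r n := by
      simp only [Rb, Lb]
      have e3 : (α r)⁻¹ * (α n)⁻¹⁻¹ = α (r⁻¹ * n⁻¹⁻¹) := by simp
      rw [e3, ← map_inv, ← map_inv α n, hbb]
      by_cases hd : Dn q m⁻¹ n⁻¹
      · rw [if_pos hd, if_pos ((hdn _ _).2 hd)]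
      · rw [if_neg hd, if_neg (fun e => hd ((hdn _ _).1 e))]
    simp only [Rv, Matrix.add_apply, Matrix.smul_apply, e1, e2]

/-! ### the generic algebra -/

theorem exists_gen (h : HD T Sim q c) :
    ∃ Γ : N → N → N → ℂ[X], Asc Γ ∧ TTr T Γ ∧ Inv (AutHD Sim q c) Γ ∧
      (∀ a b r, (Γ a b r).eval 0 = gc a b r) ∧ ∀ a b r, (Γ a b r).eval 1 = (c a b r : ℂ) := by
  classical
  have hP : ∀ a : N, ∃ P : Matrix N N ℂ[X], InC T Sim q c (X : ℂ[X]) P ∧
      ∀ r, P r 1 = if r = a then 1 else 0 := fun a => exists_P h X (q a) a rfl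
  choose P hP hP1 using hP
  have hf : ∀ (z : ℂ) (x : ℝ), (evalRingHom z) (algebraMap ℝ ℂ[X] x) = algebraMap ℝ ℂ x := by
    intro z x
    rw [Polynomial.algebraMap_apply]
    simp
  refine ⟨fun a b r => P a r b, ?_, ?_, ?_, ?_, ?_⟩
  · intro a b d r
    have h1 : P a * P b = ∑ s, P a s b • P s := by
      refine inC_uniq h (inC_mul (hP a) (hP b)) ?_ ?_
      · intro B hB
        rw [Finset.sum_mul, Finset.mul_sum]
        refine Finset.sum_congr rfl fun s _ => ?_
        rw [smul_mul_assoc, mul_smul_comm, hP s B hB]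
      · intro r
        rw [Matrix.mul_apply, Matrix.sum_apply]
        simp only [Matrix.smul_apply, smul_eq_mul, hP1, mul_ite, mul_one, mul_zero,
          Finset.sum_ite_eq, Finset.sum_ite_eq', Finset.mem_univ, if_true]
    have h2 := congrFun (congrFun h1 r) d
    rw [Matrix.mul_apply, Matrix.sum_apply] at h2
    simp only [Matrix.smul_apply, smul_eq_mul] at h2
    rw [← h2]
    exact Finset.sum_congr rfl fun s _ => mul_comm _ _
  · intro t ht b r
    constructor
    · have h1 : P t = La ℂ[X] t := by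
        refine inC_uniq h (hP t) (inC_la h X ht) fun r => ?_
        rw [hP1]
        simp [La]
      change P t r b = _
      rw [h1]
      rfl
    · have h1 := congrFun (congrFun (hP b _ (Or.inl ⟨t, ht, rfl⟩)) r) 1
      rw [Matrix.mul_apply, Matrix.mul_apply] at h1
      simp only [Ra, one_mul, hP1, mul_ite, mul_one, mul_zero, Finset.sum_ite_eq',
        Finset.mem_univ, if_true] at h1
      exact h1
  · intro α hα a b r
    have h1 : cjA α (P (α a)) = P a := by
      refine inC_uniq h (inC_aut h hα (hP (α a))) (hP a) fun r => ?_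
      rw [cjA, map_one, hP1, hP1]
      by_cases e : r = a
      · rw [if_pos e, if_pos (by rw [e])]
      · rw [if_neg e, if_neg (fun e' => e (α.injective e'))]
    exact congrFun (congrFun h1 r) b
  · intro a b r
    have h1 : (P a).map (evalRingHom (0 : ℂ)) = La ℂ a := by
      have h2 := inC_map (evalRingHom (0 : ℂ)) (hf 0) (hP a)
      rw [coe_evalRingHom, eval_X] at h2
      refine inC_uniq h h2 (inC_zero a) fun r => ?_
      rw [Matrix.map_apply, hP1]
      simp only [La, mul_one]
      split_ifs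
      · simp
      · simp
    have h3 := congrFun (congrFun h1 r) b
    rw [Matrix.map_apply] at h3
    exact h3
  · intro a b r
    have h1 : (P a).map (evalRingHom (1 : ℂ)) =
        Lam c ℂ a := by
      have h2 := inC_map (evalRingHom (1 : ℂ)) (hf 1) (hP a)
      rw [coe_evalRingHom, eval_X] at h2
      refine inC_uniq h h2 (inC_one h a) fun r => ?_
      rw [Matrix.map_apply, hP1, Lam, (h.ttr 1 T.one_mem a r).2, mul_one]
      split_ifs
      · simp
      · simp
    have h3 := congrFun (congrFun h1 r) b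
    rw [Matrix.map_apply] at h3
    exact h3

end Pool.Agent.Helper24.TD
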