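import Pool.Agent.Helper81.TD.Defs

/-!
# Project TD, block B: the generic operators, commutation
-/

set_option autoImplicit false

namespace Pool.Agent.Helper24.TD

open Pool.Agent.Helper81.TD

variable {N : Type} [Group N] [Fintype N] [DecidableEq N] {R : Type} [CommRing R] [Algebra ℝ R]

/-- `m` goes down at `n` -/
def Dn (q : N → ℕ) (m n : N) : Prop := q n = q m * q (m * n)

/-- translation -/
def La (R : Type) [CommRing R] (m : N) : Matrix N N R := fun r n => if r = m * n then 1 else 0

/-- translation from the right -/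
def Ra (R : Type) [CommRing R] (m : N) : Matrix N N R := fun r n => if r = n * m then 1 else 0

/-- coefficients -/
noncomputable def bb (q : N → ℕ) (c : N → N → N → ℝ) (m k : N) : ℝ :=
  if k = m then (q m : ℝ) - 1 else c m m⁻¹ (k * m⁻¹)

open Classical in
/-- the deviation of `L_m` from the translation -/
noncomputable def Lb (q : N → ℕ) (c : N → N → N → ℝ) (R : Type) [CommRing R] [Algebra ℝ R] (m : N) :
    Matrix N N R :=
  fun r n => if Dn q m n then algebraMap ℝ R (bb q c m (r * n⁻¹)) else 0

/-- the deviation of `R_m` from the translation -/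
noncomputable def Rb (q : N → ℕ) (c : N → N → N → ℝ) (R : Type) [CommRing R] [Algebra ℝ R] (m : N) :
    Matrix N N R :=
  fun r n => Lb q c R m⁻¹ r⁻¹ n⁻¹

/-- the matrix with entries `A r⁻¹ n⁻¹` -/
def sh (A : Matrix N N R) : Matrix N N R := fun r n => A r⁻¹ n⁻¹

omit [Algebra ℝ R] [DecidableEq N] in
theorem sh_mul (A B : Matrix N N R) : sh (A * B) = sh A * sh B := by
  ext r n
  simp only [sh, Matrix.mul_apply]
  exact (Equiv.sum_comp (Equiv.inv N) (fun s => A r⁻¹ s * B s n⁻¹)).symm

omit [Algebra ℝ R] [Fintype N] in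
theorem sh_la (m : N) : sh (La R m⁻¹) = Ra R m := by
  ext r n
  simp only [sh, La, Ra, ← mul_inv_rev, inv_inj]

omit [Algebra ℝ R] in
theorem la_mul (a b : N) : La R a * La R b = La R (a * b) := by
  ext r n
  simp only [La, Matrix.mul_apply]
  rw [Finset.sum_eq_single (b * n)]
  · simp [mul_assoc]
  · intro s _ hs
    simp [hs]
  · intro h
    exact absurd (Finset.mem_univ _) h

omit [Algebra ℝ R] in
theorem la_ra (a b : N) : Commute (La R a) (Ra R b) := by
  change La R a * Ra R b = Ra R b * La R a
  ext r n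
  simp only [La, Ra, Matrix.mul_apply]
  rw [Finset.sum_eq_single (n * b), Finset.sum_eq_single (a * n)]
  · simp [mul_assoc]
  · intro s _ hs
    simp [hs]
  · intro h
    exact absurd (Finset.mem_univ _) h
  · intro s _ hs
    simp [hs]
  · intro h
    exact absurd (Finset.mem_univ _) h

variable {T : Subgroup N} {Sim : Set N} {q : N → ℕ} {c : N → N → N → ℝ}

section basics

variable (h : HD T Sim q c)

include h

theorem sim_inv {m : N} (hm : m ∈ Sim) : m⁻¹ ∈ Sim := by
  have h1 := (h.sim_mul m hm (m * m)⁻¹ (T.inv_mem (h.sim_sq m hm))).2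
  have h2 : m * (m * m)⁻¹ = m⁻¹ := by group
  rwa [h2] at h1

theorem dn_tr {m t n : N} (ht : t ∈ T) : Dn q m (n * t) ↔ Dn q m n := by
  unfold Dn
  rw [(h.q_mul t ht n).2, ← mul_assoc, (h.q_mul t ht (m * n)).2]

theorem nrm {t n : N} (ht : t ∈ T) : n⁻¹ * t * n ∈ T := by
  have := h.normal.conj_mem t ht n⁻¹
  simpa using this

theorem dn_tl {m t n : N} (ht : t ∈ T) : Dn q m (t * n) ↔ Dn q m n := by
  have e : t * n = n * (n⁻¹ * t * n) := by group
  rw [e]
  exact dn_tr h (nrm h ht)

theorem dn_ml {m t n : N} (ht : t ∈ T) : Dn q (m * t) n ↔ Dn q m n := by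
  unfold Dn
  have e : m * t * n = m * n * (n⁻¹ * t * n) := by group
  rw [e, (h.q_mul t ht m).2, (h.q_mul _ (nrm h ht) (m * n)).2]

/-- up or down -/
theorem up_of_not {m n : N} (hm : m ∈ Sim) (hd : ¬ Dn q m n) : q (m * n) = q m * q n := by
  rcases h.dich m hm n with h1 | h1
  · exact h1
  · exact absurd h1 hd

theorem not_dn {m n : N} (hm : m ∈ Sim) (hu : q (m * n) = q m * q n) : ¬ Dn q m n := by
  intro hd
  unfold Dn at hd
  rw [hu] at hd
  have h1 := h.q_sim m hm
  have h2 := h.q_pos n
  have h3 : q m * (q m * q n) = (q m * q m) * q n := by ring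
  rw [h3] at hd
  have h4 : 1 < q m * q m := by nlinarith
  nlinarith

end basics

/-- left multiplication by `T_m` -/
theorem lam_eq (h : HD T Sim q c) {m : N} (hm : m ∈ Sim) (r n : N) :
    (La R m + Lb q c R m) r n = algebraMap ℝ R (c m n r) := by
  classical
  simp only [Matrix.add_apply, La, Lb]
  by_cases hd : Dn q m n
  · rw [if_pos hd]
    have hm' := sim_inv h hm
    -- T_{m⁻¹} T_{mn} = T_n
    have h1 : ∀ s, c m⁻¹ (m * n) s = if s = n then 1 else 0 := by
      intro s
      have e : m⁻¹ * (m * n) = n := by group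
      have := h.up m⁻¹ hm' (m * n) s (by rw [e, h.q_inv]; exact hd)
      rwa [e] at this
    have h2 := h.asc m m⁻¹ (m * n) r
    have h3 : ∑ s, c m⁻¹ (m * n) s * c m s r = c m n r := by
      simp only [h1, ite_mul, one_mul, zero_mul, Finset.sum_ite_eq', Finset.mem_univ, if_true]
    rw [h3] at h2
    have h4 : ∀ s, c m m⁻¹ s * c s (m * n) r = c m m⁻¹ s * (if s = r * n⁻¹ * m⁻¹ then 1 else 0) := by
      intro s
      have e2 : (s = r * n⁻¹ * m⁻¹) = (r = s * (m * n)) := by
        apply propext
        constructor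
        · rintro rfl
          group
        · rintro rfl
          group
      simp only [e2]
      by_cases hs : s = 1
      · subst hs
        rw [(h.ttr 1 T.one_mem (m * n) r).1]
      · by_cases hc : c m m⁻¹ s = 0
        · rw [hc, zero_mul, zero_mul]
        · have h5 := h.sq_supp m hm s hs hc
          congr 1
          have h6 : s ∈ Sim := by
            have := (h.sim_mul m hm _ h5).2
            rwa [mul_inv_cancel_left] at this
          have h7 : q s = q m := by
            have := (h.q_mul _ h5 m).2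
            rwa [mul_inv_cancel_left] at this
          have h8 : s * m ∈ T := by
            have h9 : s * m = m * (m⁻¹ * s) * m⁻¹ * (m * m) := by group
            rw [h9]
            exact T.mul_mem (h.normal.conj_mem _ h5 m) (h.sim_sq m hm)
          have h10 : q (s * (m * n)) = q s * q (m * n) := by
            rw [← mul_assoc, (h.q_mul _ h8 n).1, h7]
            exact hd
          exact h.up s h6 (m * n) r h10
    rw [Finset.sum_congr rfl (fun s _ => h4 s)] at h2
    simp only [mul_ite, mul_one, mul_zero, Finset.sum_ite_eq', Finset.mem_univ, if_true] at h2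
    rw [← h2]
    unfold bb
    by_cases hr : r = m * n
    · subst hr
      have e1 : m * n * n⁻¹ = m := by group
      rw [if_pos rfl, e1, if_pos rfl, mul_inv_cancel, h.sq_one m hm, map_sub, map_one]
      ring
    · have e1 : ¬ r * n⁻¹ = m := fun e => hr (by rw [← e]; group)
      rw [if_neg hr, if_neg e1, zero_add]
  · rw [if_neg hd, h.up m hm n r (up_of_not h hm hd), add_zero]
    split_ifs
    · rw [map_one]
    · rw [map_zero]

theorem rho_eq (h : HD T Sim q c) {m : N} (hm : m ∈ Sim) (r n : N) :
    (Ra R m + Rb q c R m) r n = algebraMap ℝ R (c n m r) := by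
  have h1 := lam_eq (R := R) h (sim_inv h hm) r⁻¹ n⁻¹
  rw [← h.anti n m r] at h1
  rw [← h1, ← sh_la]
  rfl

/-- associativity -/
theorem comm_one (h : HD T Sim q c) {m m' : N} (hm : m ∈ Sim) (hm' : m' ∈ Sim) :
    Commute (La R m + Lb q c R m) (Ra R m' + Rb q c R m') := by
  change _ * _ = _ * _
  ext r n
  rw [Matrix.mul_apply, Matrix.mul_apply]
  simp only [lam_eq h hm, rho_eq h hm', ← map_mul, ← map_sum]
  congr 1
  have := h.asc m n m' r
  rw [Finset.sum_congr rfl fun s _ => mul_comm (c m s r) (c n m' s), ← this]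
  exact Finset.sum_congr rfl fun s _ => mul_comm _ _

end Pool.Agent.Helper24.TD
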