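import Pool.Agent.Helper24.TD.GenA

/-!
# Project TD, block B: the deviations of the left and right operators commute
-/

set_option autoImplicit false

namespace Pool.Agent.Helper24.TD

open Pool.Agent.Helper81.TD

variable {N : Type} [Group N] [Fintype N] [DecidableEq N] {R : Type} [CommRing R] [Algebra ℝ R]
variable {T : Subgroup N} {Sim : Set N} {q : N → ℕ} {c : N → N → N → ℝ}

theorem bb_supp (h : HD T Sim q c) {m k : N} (hm : m ∈ Sim) (hk : bb q c m k ≠ 0) :
    k = m ∨ k ∈ T := by
  by_cases e : k = m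
  · exact Or.inl e
  · right
    unfold bb at hk
    rw [if_neg e] at hk
    have h1 := h.sq_supp m hm (k * m⁻¹) (fun e1 => e (mul_inv_eq_one.1 e1)) hk
    have h2 : k = m * (m⁻¹ * (k * m⁻¹)) * m⁻¹ * (m * m) := by group
    rw [h2]
    exact T.mul_mem (h.normal.conj_mem _ h1 m) (h.sim_sq m hm)

omit [Fintype N] in
theorem bb_self (q : N → ℕ) (c : N → N → N → ℝ) (m : N) : bb q c m m = (q m : ℝ) - 1 := by
  unfold bb
  rw [if_pos rfl]

open Classical in
theorem lb_rb (m m' r n : N) :
    (Lb q c ℝ m * Rb q c ℝ m') r n = ∑ s, (if Dn q m s ∧ Dn q m'⁻¹ n⁻¹ then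
      bb q c m (r * s⁻¹) * bb q c m'⁻¹ (s⁻¹ * n) else 0) := by
  rw [Matrix.mul_apply]
  refine Finset.sum_congr rfl fun s _ => ?_
  simp only [Lb, Rb, inv_inv, Algebra.algebraMap_self, RingHom.id_apply]
  by_cases h1 : Dn q m s <;> by_cases h2 : Dn q m'⁻¹ n⁻¹ <;> simp [h1, h2]

open Classical in
theorem rb_lb (m m' r n : N) :
    (Rb q c ℝ m' * Lb q c ℝ m) r n = ∑ s, (if Dn q m'⁻¹ (n⁻¹ * (r * s⁻¹)⁻¹) ∧ Dn q m n then
      bb q c m (r * s⁻¹) * bb q c m'⁻¹ (s⁻¹ * n) else 0) := by
  rw [Matrix.mul_apply]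
  let e : N ≃ N := ((Equiv.inv N).trans (Equiv.mulLeft r)).trans (Equiv.mulRight n)
  have he : ∀ s, e s = r * s⁻¹ * n := fun s => rfl
  rw [← Equiv.sum_comp e]
  refine Finset.sum_congr rfl fun s _ => ?_
  have e1 : (r * s⁻¹ * n)⁻¹ = n⁻¹ * (r * s⁻¹)⁻¹ := by group
  have e2 : r⁻¹ * (r * s⁻¹ * n) = s⁻¹ * n := by group
  have e3 : r * s⁻¹ * n * n⁻¹ = r * s⁻¹ := by group
  simp only [he, Lb, Rb, inv_inv, Algebra.algebraMap_self, RingHom.id_apply]
  rw [e1, e2, e3]
  by_cases h1 : Dn q m n
  · by_cases h2 : Dn q m'⁻¹ (n⁻¹ * (r * s⁻¹)⁻¹)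
    · rw [if_pos h1, if_pos h2, if_pos ⟨h2, h1⟩, mul_comm]
    · rw [if_pos h1, if_neg h2, if_neg (fun g => h2 g.1), zero_mul]
  · rw [if_neg h1, mul_zero, if_neg (fun g => h1 g.2)]

/-- arithmetic -/
theorem arith_nat {x y a b d e : ℕ} (hx : 1 < x) (hy : 1 < y) (pd : 0 < d) (pe : 0 < e) (d1 : b = x * a ∨ a = x * b) (d2 : d = y * a ∨ a = y * d)
    (d3 : e = x * d ∨ d = x * e) (d4 : e = y * b ∨ b = y * e) :
    ((a = x * b ∧ a = y * d) → (d = x * e ↔ b = y * e)) ∧
    ((¬ a = x * b ∧ a = y * d) → ¬ d = x * e) ∧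
    ((a = x * b ∧ ¬ a = y * d) → ¬ b = y * e) ∧
    ((a = x * b ∧ a = y * d ∧ ¬ d = x * e) → x = y) := by
  have h2 : 2 * 2 ≤ x * x := Nat.mul_le_mul hx hx
  have h3 : 2 * 2 ≤ y * y := Nat.mul_le_mul hy hy
  have h4 : 2 * 2 ≤ x * y := Nat.mul_le_mul hx hy
  have h5 : 4 * 4 ≤ (x * y) * (x * y) := Nat.mul_le_mul h4 h4
  refine ⟨?_, ?_, ?_, ?_⟩
  · rintro ⟨e1, e2⟩
    constructor
    · intro e3
      refine Nat.eq_of_mul_eq_mul_left (show 0 < x by omega) ?_
      calc x * b = a := e1.symm
        _ = y * d := e2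
        _ = x * (y * e) := by rw [e3]; ring
    · intro e3
      refine Nat.eq_of_mul_eq_mul_left (show 0 < y by omega) ?_
      calc y * d = a := e2.symm
        _ = x * b := e1
        _ = y * (x * e) := by rw [e3]; ring
  · rintro ⟨e1, e2⟩ e3
    have hb : b = x * a := by
      rcases d1 with d1 | d1
      · exact d1
      · exact absurd d1 e1
    rw [e2, e3] at hb
    rcases d4 with d4 | d4
    · have h6 : 1 * e = ((x * y) * (x * y)) * e := by
        calc 1 * e = y * b := by rw [one_mul]; exact d4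
          _ = _ := by rw [hb]; ring
      have := Nat.eq_of_mul_eq_mul_right pe h6
      omega
    · have h6 : 1 * (y * e) = (x * x) * (y * e) := by
        calc 1 * (y * e) = b := by rw [one_mul]; exact d4.symm
          _ = _ := by rw [hb]; ring
      have := Nat.eq_of_mul_eq_mul_right (Nat.mul_pos (by omega) pe) h6
      omega
  · rintro ⟨e1, e2⟩ e3
    have hd : d = y * a := by
      rcases d2 with d2 | d2
      · exact d2
      · exact absurd d2 e2
    rw [e1, e3] at hd
    rcases d3 with d3 | d3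
    · have h6 : 1 * e = ((x * y) * (x * y)) * e := by
        calc 1 * e = x * d := by rw [one_mul]; exact d3
          _ = _ := by rw [hd]; ring
      have := Nat.eq_of_mul_eq_mul_right pe h6
      omega
    · have h6 : 1 * (x * e) = (y * y) * (x * e) := by
        calc 1 * (x * e) = d := by rw [one_mul]; exact d3.symm
          _ = _ := by rw [hd]; ring
      have := Nat.eq_of_mul_eq_mul_right (Nat.mul_pos (by omega) pe) h6
      omega
  · rintro ⟨e1, e2, e3⟩
    have he : e = x * d := by
      rcases d3 with d3 | d3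
      · exact d3
      · exact absurd d3 e3
    rcases d4 with d4 | d4
    · have h6 : (x * x) * d = (y * y) * d := by
        calc (x * x) * d = x * e := by rw [he]; ring
          _ = y * (x * b) := by rw [d4]; ring
          _ = y * (y * d) := by rw [← e1, e2]
          _ = _ := by ring
      have h7 := Nat.eq_of_mul_eq_mul_right pd h6
      exact Nat.mul_self_inj.1 h7
    · have h6 : 1 * (y * d) = (x * x) * (y * d) := by
        calc 1 * (y * d) = x * b := by rw [one_mul, ← e2, e1]
          _ = _ := by rw [d4, he]; ring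
      have := Nat.eq_of_mul_eq_mul_right (Nat.mul_pos (by omega) pd) h6
      omega

/-- the arithmetic of `q` -/
theorem arith (h : HD T Sim q c) {m m' : N} (hm : m ∈ Sim) (hm' : m' ∈ Sim) (n : N) :
    ((Dn q m n ∧ Dn q m'⁻¹ n⁻¹) → (Dn q m (n * m') ↔ Dn q m'⁻¹ (n⁻¹ * m⁻¹))) ∧
    ((¬ Dn q m n ∧ Dn q m'⁻¹ n⁻¹) → ¬ Dn q m (n * m')) ∧
    ((Dn q m n ∧ ¬ Dn q m'⁻¹ n⁻¹) → ¬ Dn q m'⁻¹ (n⁻¹ * m⁻¹)) ∧
    ((Dn q m n ∧ Dn q m'⁻¹ n⁻¹ ∧ ¬ Dn q m (n * m')) → q m = q m') := by
  have hmi := sim_inv h hm'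
  have a1 : q m'⁻¹ = q m' := h.q_inv m'
  have a2 : q n⁻¹ = q n := h.q_inv n
  have a3 : q (m'⁻¹ * n⁻¹) = q (n * m') := by
    rw [← h.q_inv (n * m'), mul_inv_rev]
  have a4 : q (n⁻¹ * m⁻¹) = q (m * n) := by
    rw [← h.q_inv (m * n), mul_inv_rev]
  have a5 : q (m'⁻¹ * (n⁻¹ * m⁻¹)) = q (m * (n * m')) := by
    rw [← h.q_inv (m * (n * m')), mul_inv_rev, mul_inv_rev, mul_assoc]
  have d1 := h.dich m hm n
  have d2 := h.dich m'⁻¹ hmi n⁻¹
  have d3 := h.dich m hm (n * m')
  have d4 := h.dich m'⁻¹ hmi (n⁻¹ * m⁻¹)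
  rw [a1, a3, a2] at d2
  rw [a1, a5, a4] at d4
  unfold Dn
  rw [a1, a2, a3, a4, a5]
  exact arith_nat (h.q_sim m hm) (h.q_sim m' hm') (h.q_pos (n * m')) (h.q_pos (m * (n * m'))) d1 d2 d3 d4

/-- entries of products with translations -/
theorem la_mul_apply (m r n : N) (A : Matrix N N ℝ) : (La ℝ m * A) r n = A (m⁻¹ * r) n := by
  rw [Matrix.mul_apply, Finset.sum_eq_single (m⁻¹ * r)]
  · simp [La]
  · intro s _ hs
    have : ¬ r = m * s := fun e => hs (by rw [e]; group)
    simp [La, this]
  · intro h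
    exact absurd (Finset.mem_univ _) h

theorem mul_la_apply (m r n : N) (A : Matrix N N ℝ) : (A * La ℝ m) r n = A r (m * n) := by
  rw [Matrix.mul_apply, Finset.sum_eq_single (m * n)]
  · simp [La]
  · intro s _ hs
    simp [La, hs]
  · intro h
    exact absurd (Finset.mem_univ _) h

theorem ra_mul_apply (m r n : N) (A : Matrix N N ℝ) : (Ra ℝ m * A) r n = A (r * m⁻¹) n := by
  rw [Matrix.mul_apply, Finset.sum_eq_single (r * m⁻¹)]
  · simp [Ra]
  · intro s _ hs
    have : ¬ r = s * m := fun e => hs (by rw [e]; group)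
    simp [Ra, this]
  · intro h
    exact absurd (Finset.mem_univ _) h

theorem mul_ra_apply (m r n : N) (A : Matrix N N ℝ) : (A * Ra ℝ m) r n = A r (n * m) := by
  rw [Matrix.mul_apply, Finset.sum_eq_single (n * m)]
  · simp [Ra]
  · intro s _ hs
    simp [Ra, hs]
  · intro h
    exact absurd (Finset.mem_univ _) h

omit [Fintype N] in
open Classical in
theorem lb_apply (m r n : N) : Lb q c ℝ m r n = if Dn q m n then bb q c m (r * n⁻¹) else 0 := rfl

omit [Fintype N] in
open Classical in
theorem rb_apply (m r n : N) :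
    Rb q c ℝ m r n = if Dn q m⁻¹ n⁻¹ then bb q c m⁻¹ (r⁻¹ * n) else 0 := by
  simp only [Rb, Lb, inv_inv, Algebra.algebraMap_self, RingHom.id_apply]

/-- `[L, R] = 0` at `v = 1` -/
theorem star (h : HD T Sim q c) {m m' : N} (hm : m ∈ Sim) (hm' : m' ∈ Sim) (r n : N) :
    Rb q c ℝ m' (m⁻¹ * r) n + Lb q c ℝ m r (n * m') + (Lb q c ℝ m * Rb q c ℝ m') r n =
    Lb q c ℝ m (r * m'⁻¹) n + Rb q c ℝ m' r (m * n) + (Rb q c ℝ m' * Lb q c ℝ m) r n := by
  have h1 := congrFun (congrFun (comm_one (R := ℝ) h hm hm').eq r) n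
  have h2 := congrFun (congrFun (la_ra (R := ℝ) m m').eq r) n
  rw [add_mul, mul_add, mul_add, add_mul, mul_add, mul_add] at h1
  simp only [Matrix.add_apply] at h1
  rw [la_mul_apply m r n (Rb q c ℝ m'), mul_ra_apply m' r n (Lb q c ℝ m),
    ra_mul_apply m' r n (Lb q c ℝ m), mul_la_apply m r n (Rb q c ℝ m')] at h1
  rw [h2] at h1
  linarith

theorem comm_bb (h : HD T Sim q c) {m m' : N} (hm : m ∈ Sim) (hm' : m' ∈ Sim) :
    Commute (Lb q c ℝ m) (Rb q c ℝ m') := by
  classical
  change _ * _ = _ * _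
  ext r n
  obtain ⟨f1, f2, f3, f4⟩ := arith h hm hm' n
  have hmi := sim_inv h hm'
  -- the supports
  have key : ∀ s, bb q c m (r * s⁻¹) * bb q c m'⁻¹ (s⁻¹ * n) ≠ 0 →
      ((s = n * m' ∧ ¬ s⁻¹ * n ∈ T) ∨ ((Dn q m s ↔ Dn q m n) ∧ s⁻¹ * n ∈ T)) ∧
      ((r * s⁻¹ = m) ∨ ((Dn q m'⁻¹ (n⁻¹ * (r * s⁻¹)⁻¹) ↔ Dn q m'⁻¹ n⁻¹))) := by
    intro s hs
    constructor
    · rcases bb_supp h hmi (right_ne_zero_of_mul hs) with e | e
      · left
        have e1 : s = n * m' := by
          have : n = s * m'⁻¹ := by rw [← e]; group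
          rw [this]
          group
        refine ⟨e1, ?_⟩
        rw [e]
        exact h.sim_ne _ hmi
      · right
        refine ⟨?_, e⟩
        have e1 : s = n * (s⁻¹ * n)⁻¹ := by group
        rw [e1]
        exact dn_tr h (T.inv_mem e)
    · rcases bb_supp h hm (left_ne_zero_of_mul hs) with e | e
      · exact Or.inl e
      · exact Or.inr (dn_tr h (T.inv_mem e))
  by_cases D1 : Dn q m n
  · by_cases D2 : Dn q m'⁻¹ n⁻¹
    · by_cases D1' : Dn q m (n * m')
      · -- all indicators are one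
        have D2' := (f1 ⟨D1, D2⟩).1 D1'
        rw [lb_rb, rb_lb]
        refine Finset.sum_congr rfl fun s _ => ?_
        by_cases hs : bb q c m (r * s⁻¹) * bb q c m'⁻¹ (s⁻¹ * n) = 0
        · rw [hs, ite_self, ite_self]
        · obtain ⟨k1, k2⟩ := key s hs
          have g1 : Dn q m s := by
            rcases k1 with ⟨k1, -⟩ | ⟨k1, -⟩
            · rw [k1]; exact D1'
            · exact k1.2 D1
          have g2 : Dn q m'⁻¹ (n⁻¹ * (r * s⁻¹)⁻¹) := by
            rcases k2 with k2 | k2
            · rw [k2]; exact D2'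
            · exact k2.2 D2
          rw [if_pos ⟨g1, D2⟩, if_pos ⟨g2, D1⟩]
      · have D2' : ¬ Dn q m'⁻¹ (n⁻¹ * m⁻¹) := fun e => D1' ((f1 ⟨D1, D2⟩).2 e)
        have hxy := f4 ⟨D1, D2, D1'⟩
        by_cases hr : r = m * n * m'
        · -- termwise
          rw [lb_rb, rb_lb]
          refine Finset.sum_congr rfl fun s _ => ?_
          by_cases hs : bb q c m (r * s⁻¹) * bb q c m'⁻¹ (s⁻¹ * n) = 0
          · rw [hs, ite_self, ite_self]
          · obtain ⟨k1, k2⟩ := key s hs
            by_cases e : s = n * m'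
            · have g1 : ¬ Dn q m s := by rw [e]; exact D1'
              have e4 : r * s⁻¹ = m := by rw [hr, e]; group
              rw [if_neg (fun g => g1 g.1), if_neg]
              rintro ⟨g, -⟩
              rw [e4] at g
              exact D2' g
            · have g1 : Dn q m s := by
                rcases k1 with ⟨k1, -⟩ | ⟨k1, -⟩
                · exact absurd k1 e
                · exact k1.2 D1
              have g2 : Dn q m'⁻¹ (n⁻¹ * (r * s⁻¹)⁻¹) := by
                rcases k2 with k2 | k2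
                · exact absurd (by
                    have e5 : s = (r * s⁻¹)⁻¹ * r := by group
                    rw [e5, k2, hr]; group) e
                · exact k2.2 D2
              rw [if_pos ⟨g1, D2⟩, if_pos ⟨g2, D1⟩]
        · have hst := star h hm hm' r n
          rw [rb_apply, lb_apply, lb_apply, rb_apply, if_pos D2, if_neg D1', if_pos D1,
            mul_inv_rev m n, if_neg D2'] at hst
          have hdiff : (Lb q c ℝ m * Rb q c ℝ m') r n - (Rb q c ℝ m' * Lb q c ℝ m) r n =
              ((q m : ℝ) - 1) * bb q c m'⁻¹ ((m⁻¹ * r)⁻¹ * n) -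
                ((q m' : ℝ) - 1) * bb q c m (r * m'⁻¹ * n⁻¹) := by
            rw [lb_rb, rb_lb, ← Finset.sum_sub_distrib]
            have hsum : ∀ s, ((if Dn q m s ∧ Dn q m'⁻¹ n⁻¹ then
                bb q c m (r * s⁻¹) * bb q c m'⁻¹ (s⁻¹ * n) else 0) -
                (if Dn q m'⁻¹ (n⁻¹ * (r * s⁻¹)⁻¹) ∧ Dn q m n then
                bb q c m (r * s⁻¹) * bb q c m'⁻¹ (s⁻¹ * n) else 0)) =
                (if s = m⁻¹ * r then ((q m : ℝ) - 1) * bb q c m'⁻¹ ((m⁻¹ * r)⁻¹ * n) else 0) -
                (if s = n * m' then ((q m' : ℝ) - 1) * bb q c m (r * m'⁻¹ * n⁻¹) else 0) := by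
              intro s
              by_cases e1 : s = m⁻¹ * r
              · have e2 : ¬ s = n * m' := fun e2 => hr (by
                  have : r = m * s := by rw [e1]; group
                  rw [this, e2]; group)
                have e3 : r * s⁻¹ = m := by rw [e1]; group
                have g2 : ¬ Dn q m'⁻¹ (n⁻¹ * (r * s⁻¹)⁻¹) := by rw [e3]; exact D2'
                rw [if_pos e1, if_neg e2, if_neg (show ¬ (Dn q m'⁻¹ (n⁻¹ * (r * s⁻¹)⁻¹) ∧ Dn q m n)
                  from fun g => g2 g.1), e3, bb_self, ← e1, sub_zero, sub_zero]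
                by_cases hs : bb q c m'⁻¹ (s⁻¹ * n) = 0
                · rw [hs, mul_zero, ite_self]
                · have hx : (q m : ℝ) - 1 ≠ 0 := by
                    have h1 := h.q_sim m hm
                    have h2 : (1 : ℝ) < q m := by exact_mod_cast h1
                    linarith
                  have hs' : bb q c m (r * s⁻¹) * bb q c m'⁻¹ (s⁻¹ * n) ≠ 0 := by
                    rw [e3, bb_self]
                    exact mul_ne_zero hx hs
                  obtain ⟨k1, -⟩ := key s hs'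
                  have g1 : Dn q m s := by
                    rcases k1 with ⟨k1, -⟩ | ⟨k1, -⟩
                    · exact absurd k1 e2
                    · exact k1.2 D1
                  rw [if_pos ⟨g1, D2⟩]
              · by_cases e2 : s = n * m'
                · have g1 : ¬ Dn q m s := by rw [e2]; exact D1'
                  have e3 : s⁻¹ * n = m'⁻¹ := by rw [e2]; group
                  have e4 : r * s⁻¹ = r * m'⁻¹ * n⁻¹ := by rw [e2]; group
                  rw [if_neg e1, if_pos e2, if_neg (show ¬ (Dn q m s ∧ Dn q m'⁻¹ n⁻¹)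
                    from fun g => g1 g.1), e3, bb_self, h.q_inv, e4]
                  by_cases hs : bb q c m (r * m'⁻¹ * n⁻¹) = 0
                  · rw [hs, mul_zero, zero_mul, ite_self]
                  · have hy : (q m' : ℝ) - 1 ≠ 0 := by
                      have h1 := h.q_sim m' hm'
                      have h2 : (1 : ℝ) < q m' := by exact_mod_cast h1
                      linarith
                    have hs' : bb q c m (r * s⁻¹) * bb q c m'⁻¹ (s⁻¹ * n) ≠ 0 := by
                      rw [e3, bb_self, h.q_inv, e4]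
                      exact mul_ne_zero hs hy
                    obtain ⟨-, k2⟩ := key s hs'
                    have g2 : Dn q m'⁻¹ (n⁻¹ * (r * m'⁻¹ * n⁻¹)⁻¹) := by
                      rcases k2 with k2 | k2
                      · exact absurd (by
                          have e5 : s = (r * s⁻¹)⁻¹ * r := by group
                          rw [e5, k2]) e1
                      · rw [← e4]
                        exact k2.2 D2
                    rw [if_pos ⟨g2, D1⟩, mul_comm]
                · rw [if_neg e1, if_neg e2, sub_self]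
                  by_cases hs : bb q c m (r * s⁻¹) * bb q c m'⁻¹ (s⁻¹ * n) = 0
                  · rw [hs, ite_self, ite_self, sub_self]
                  · obtain ⟨k1, k2⟩ := key s hs
                    have g1 : Dn q m s := by
                      rcases k1 with ⟨k1, -⟩ | ⟨k1, -⟩
                      · exact absurd k1 e2
                      · exact k1.2 D1
                    have g2 : Dn q m'⁻¹ (n⁻¹ * (r * s⁻¹)⁻¹) := by
                      rcases k2 with k2 | k2
                      · exact absurd (by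
                          have e5 : s = (r * s⁻¹)⁻¹ * r := by group
                          rw [e5, k2]) e1
                      · exact k2.2 D2
                    rw [if_pos ⟨g1, D2⟩, if_pos ⟨g2, D1⟩, sub_self]
            rw [Finset.sum_congr rfl fun s _ => hsum s, Finset.sum_sub_distrib,
              Finset.sum_ite_eq', Finset.sum_ite_eq', if_pos (Finset.mem_univ _),
              if_pos (Finset.mem_univ _)]
          rw [← hxy] at hdiff
          have hx : (q m : ℝ) ≠ 0 := by
            have h1 := h.q_sim m hm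
            have h2 : (1 : ℝ) < q m := by exact_mod_cast h1
            linarith
          have h5 : (q m : ℝ) * (bb q c m'⁻¹ ((m⁻¹ * r)⁻¹ * n) - bb q c m (r * m'⁻¹ * n⁻¹)) = 0 := by
            linarith
          rcases mul_eq_zero.1 h5 with h6 | h6
          · exact absurd h6 hx
          · linarith
    · -- ind1 false
      rw [lb_rb, rb_lb]
      refine Finset.sum_congr rfl fun s _ => ?_
      rw [if_neg (fun e => D2 e.2)]
      by_cases hs : bb q c m (r * s⁻¹) * bb q c m'⁻¹ (s⁻¹ * n) = 0
      · rw [hs, ite_self]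
      · obtain ⟨k1, k2⟩ := key s hs
        rw [if_neg]
        rintro ⟨g, -⟩
        rcases k2 with k2 | k2
        · rw [k2] at g
          exact f3 ⟨D1, D2⟩ g
        · exact D2 (k2.1 g)
  · by_cases D2 : Dn q m'⁻¹ n⁻¹
    · rw [lb_rb, rb_lb]
      refine Finset.sum_congr rfl fun s _ => ?_
      rw [if_neg (show ¬ (Dn q m'⁻¹ (n⁻¹ * (r * s⁻¹)⁻¹) ∧ Dn q m n) from fun e => D1 e.2)]
      by_cases hs : bb q c m (r * s⁻¹) * bb q c m'⁻¹ (s⁻¹ * n) = 0
      · rw [hs, ite_self]
      · obtain ⟨k1, k2⟩ := key s hs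
        rw [if_neg]
        rintro ⟨g, -⟩
        rcases k1 with ⟨k1, -⟩ | ⟨k1, -⟩
        · rw [k1] at g
          exact f2 ⟨D1, D2⟩ g
        · exact D1 (k1.1 g)
    · rw [lb_rb, rb_lb]
      refine Finset.sum_congr rfl fun s _ => ?_
      rw [if_neg (fun e => D2 e.2), if_neg (fun e => D1 e.2)]

end Pool.Agent.Helper24.TD
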