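import Pool.Agent.Helper81.TD.EIrr

/-!
# Project TD, E3: the map `θ ↦ psi θ` is injective and surjective
-/

set_option autoImplicit false

namespace Pool.Agent.Helper24.TD

open Matrix Pool.Agent.Helper81.TD

open Pool.Agent.Helper42.INC Pool.Agent.Helper7.MK Pool.Agent.Helper57.PL.Rep

section gen

variable {G : Type} [Group G] [Fintype G] {d : ℕ}

/-- the class sum of a character orthogonal to an irreducible representation -/
theorem ext_zero (D : G →* Matrix (Fin d) (Fin d) ℂ) (hD : (fun g => (D g).trace) ∈ Irr G)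
    (f : G → ℂ) (hf : IsClass f) (h0 : B f (fun g => (D g).trace) = 0) :
    ∑ g, f g⁻¹ • D g = 0 := by
  have hcomm : ∀ h, (∑ g, f g⁻¹ • D g) * D h = D h * ∑ g, f g⁻¹ • D g := by
    intro h
    rw [Finset.sum_mul, Finset.mul_sum, ← Equiv.sum_comp (MulAut.conj h).toEquiv]
    refine Finset.sum_congr rfl fun x _ => ?_
    have e0 : (MulAut.conj h).toEquiv x = h * x * h⁻¹ := rfl
    have e1 : f (h * x * h⁻¹)⁻¹ = f x⁻¹ := by
      have : (h * x * h⁻¹)⁻¹ = h * x⁻¹ * h⁻¹ := by group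
      rw [this, hf]
    rw [e0, e1, Matrix.smul_mul, Matrix.mul_smul, ← map_mul, ← map_mul]
    congr 2
    group
  obtain ⟨c, hc⟩ := gl_comm D hD _ hcomm
  have h1 : (∑ g, f g⁻¹ • D g).trace = 0 := by
    rw [Matrix.trace_sum]
    rw [B_eq] at h0
    have hcard : (Nat.card G : ℂ)⁻¹ ≠ 0 := inv_ne_zero (by exact_mod_cast Nat.card_pos.ne')
    have h2 := (mul_eq_zero.1 h0).resolve_left hcard
    rw [← Equiv.sum_comp (Equiv.inv G)] at h2
    rw [← h2]
    refine Finset.sum_congr rfl fun x _ => ?_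
    rw [Matrix.trace_smul, smul_eq_mul]
    simp
  rw [hc, Matrix.trace_smul, Matrix.trace_one, smul_eq_mul] at h1
  have hd : ((Fintype.card (Fin d) : ℕ) : ℂ) ≠ 0 := by
    obtain ⟨m, hm0, hm⟩ := irr_one hD
    intro h2
    have h3 : (D 1).trace = m := hm
    rw [map_one, Matrix.trace_one, h2] at h3
    have : m = 0 := by exact_mod_cast h3.symm
    omega
  have hc0 : c = 0 := (mul_eq_zero.1 h1).resolve_right hd
  rw [hc, hc0, zero_smul]

/-- the class sum of the character itself -/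
theorem ext_self (D : G →* Matrix (Fin d) (Fin d) ℂ) (hD : (fun g => (D g).trace) ∈ Irr G) :
    ∃ c : ℂ, c ≠ 0 ∧ ∑ g, (D g⁻¹).trace • D g = c • (1 : Matrix (Fin d) (Fin d) ℂ) := by
  have hcomm : ∀ h, (∑ g, (D g⁻¹).trace • D g) * D h = D h * ∑ g, (D g⁻¹).trace • D g := by
    intro h
    rw [Finset.sum_mul, Finset.mul_sum, ← Equiv.sum_comp (MulAut.conj h).toEquiv]
    refine Finset.sum_congr rfl fun x _ => ?_
    have e0 : (MulAut.conj h).toEquiv x = h * x * h⁻¹ := rfl
    have e1 : (D (h * x * h⁻¹)⁻¹).trace = (D x⁻¹).trace := by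
      have e2 : (h * x * h⁻¹)⁻¹ = h * x⁻¹ * h⁻¹ := by group
      rw [e2]
      exact Irr.isClass hD h x⁻¹
    rw [e0, e1, Matrix.smul_mul, Matrix.mul_smul, ← map_mul, ← map_mul]
    congr 2
    group
  obtain ⟨c, hc⟩ := gl_comm D hD _ hcomm
  refine ⟨c, ?_, hc⟩
  rintro rfl
  have h1 : (∑ g, (D g⁻¹).trace • D g).trace = 0 := by
    rw [hc, zero_smul, Matrix.trace_zero]
  rw [Matrix.trace_sum] at h1
  have h2 := B_irr_self hD
  rw [B_eq] at h2
  have h3 : ∑ x, (D x).trace * (D x⁻¹).trace = 0 := by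
    rw [← h1]
    refine Finset.sum_congr rfl fun x _ => ?_
    rw [Matrix.trace_smul, smul_eq_mul, mul_comm]
  rw [h3, mul_zero] at h2
  exact zero_ne_one h2

/-- a function killed by all irreducible representations is zero -/
theorem ext_complete (F : G → ℂ) (h : ∀ (d : ℕ) (D : G →* Matrix (Fin d) (Fin d) ℂ),
    (fun g => (D g).trace) ∈ Irr G → ∑ g, F g • D g = 0) : F = 0 := by
  classical
  have := Fintype.ofFinite (Irr G)
  let δ : G → ℂ := fun g => if g = 1 then 1 else 0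
  have hδ : IsClass δ := by
    intro a b
    have e : a * b * a⁻¹ = 1 ↔ b = 1 := by
      constructor
      · intro e
        have : b = a⁻¹ * (a * b * a⁻¹) * a := by group
        rw [this, e]
        group
      · rintro rfl
        group
    simp only [δ, e]
  have h1 := expand δ hδ
  have h2 : ∀ χ ∈ Irr G, ∀ k : G, ∑ g, F g * χ (g * k) = 0 := by
    intro χ hχ k
    obtain ⟨m, D, -, rfl⟩ := gl_mat hχ
    have h3 := h m D hχ
    have h4 : ((∑ g, F g • D g) * D k).trace = 0 := by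
      rw [h3, Matrix.zero_mul, Matrix.trace_zero]
    rw [Finset.sum_mul, Matrix.trace_sum] at h4
    rw [← h4]
    refine Finset.sum_congr rfl fun g _ => ?_
    rw [Matrix.smul_mul, Matrix.trace_smul, smul_eq_mul, ← map_mul]
  funext x
  have h5 : F x = ∑ g, F g * δ (g * x⁻¹) := by
    rw [Finset.sum_eq_single x]
    · simp [δ]
    · intro g _ hg
      have : ¬ g * x⁻¹ = 1 := fun e => hg (mul_inv_eq_one.1 e)
      simp [δ, this]
    · intro e
      exact absurd (Finset.mem_univ _) e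
  rw [h5, h1]
  simp only [Finset.sum_apply, Pi.smul_apply, smul_eq_mul, Finset.mul_sum, Pi.zero_apply]
  rw [Finset.sum_comm]
  refine Finset.sum_eq_zero fun χ _ => ?_
  have h6 := h2 χ.1 χ.2 x⁻¹
  have h7 : ∀ g, F g * (B δ χ.1 * χ.1 (g * x⁻¹)) = B δ χ.1 * (F g * χ.1 (g * x⁻¹)) := by
    intro g
    ring
  rw [Finset.sum_congr rfl fun g _ => h7 g, ← Finset.mul_sum, h6, mul_zero]

end gen

variable {K : Type} [Group K] [Fintype K] {p : ℕ} [Fact p.Prime] {P U N : Subgroup K}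
  [Fintype N] [DecidableEq N] {X Y : N → N → ℂ} {d : ℕ}

/-- E3i -/
theorem psi_inj (h : BN p P U N)
    (hX : Iso ((TT P N).subgroupOf N) (AutUN U N) gc (fun a b r => (hc U N a b r : ℂ)) X Y)
    {θ θ' : K → ℂ} (hθ : θ ∈ Irr K) (hθ' : θ' ∈ Irr K) (h0 : psi U X θ 1 ≠ 0)
    (he : psi U X θ = psi U X θ') : θ = θ' := by
  by_contra hne
  obtain ⟨d, D, -, hD⟩ := gl_mat hθ
  obtain ⟨d', D', -, hD'⟩ := gl_mat hθ'
  have hcl := Irr.isClass hθ
  -- the bi-invariant function
  let f : K → ℂ := fun g => θ g⁻¹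
  let F : K → ℂ := conv (tf U 1) f
  have hF1 : ∀ u ∈ U, ∀ g, F (u * g) = F g := by
    intro u hu g
    change ∑ x, tf U 1 x * f (x⁻¹ * (u * g)) = ∑ x, tf U 1 x * f (x⁻¹ * g)
    rw [← Equiv.sum_comp (Equiv.mulLeft u)]
    refine Finset.sum_congr rfl fun y _ => ?_
    change tf U 1 (u * y) * f ((u * y)⁻¹ * (u * g)) = _
    rw [tf_left hu]
    congr 2
    group
  have hF2 : ∀ u ∈ U, ∀ g, F (g * u) = F g := by
    intro u hu g
    change ∑ x, tf U 1 x * f (x⁻¹ * (g * u)) = ∑ x, tf U 1 x * f (x⁻¹ * g)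
    rw [← Equiv.sum_comp (Equiv.mulRight u)]
    refine Finset.sum_congr rfl fun y _ => ?_
    change tf U 1 (y * u) * f ((y * u)⁻¹ * (g * u)) = _
    rw [tf_right hu]
    congr 1
    change θ ((y * u)⁻¹ * (g * u))⁻¹ = θ (y⁻¹ * g)⁻¹
    have e : ((y * u)⁻¹ * (g * u))⁻¹ = u⁻¹ * (y⁻¹ * g)⁻¹ * u⁻¹⁻¹ := by group
    rw [e, hcl]
  have key : ∀ {m : ℕ} (E : K →* Matrix (Fin m) (Fin m) ℂ), (ext E F).trace =
      ∑ s : N, (∑ r : N, F r * Nat.card U * Y r s) * psi U X (fun g => (E g).trace) s := by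
    intro m E
    rw [h.ext_biinv E F hF1 hF2, Matrix.trace_sum]
    have e1 : ∀ r : N, ((F r * Nat.card U) • ext E (tf U (r : K))).trace =
        ∑ s : N, (F r * Nat.card U * Y r s) * psi U X (fun g => (E g).trace) s := by
      intro r
      rw [ext_of_M E hX, Matrix.trace_smul, Matrix.trace_sum, smul_eq_mul, Finset.mul_sum]
      refine Finset.sum_congr rfl fun s _ => ?_
      rw [Matrix.trace_smul, trace_MM, smul_eq_mul]
      ring
    rw [Finset.sum_congr rfl fun r _ => e1 r, Finset.sum_comm]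
    exact Finset.sum_congr rfl fun s _ => by rw [Finset.sum_mul]
  have h1 := key D
  have h2 := key D'
  rw [hD] at h1
  rw [hD', ← he, ← h1] at h2
  have h3 : ext D' F = 0 := by
    change ext D' (conv (tf U 1) f) = 0
    rw [ext_conv, ext_eq D' f]
    have h4 : ∑ g, f g • D' g = 0 := ext_zero D' (by rw [hD']; exact hθ') θ hcl (by
      rw [hD']
      exact B_irr_ne hθ hθ' hne)
    rw [h4, Matrix.mul_zero]
  have h5 : (ext D F).trace ≠ 0 := by
    change (ext D (conv (tf U 1) f)).trace ≠ 0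
    rw [ext_conv, ext_eq D f]
    obtain ⟨c, hc0, hc⟩ := ext_self D (by rw [hD]; exact hθ)
    have h4 : ∑ g, f g • D g = c • (1 : Matrix (Fin d) (Fin d) ℂ) := by
      rw [← hc]
      refine Finset.sum_congr rfl fun g _ => ?_
      rw [show f g = (D g⁻¹).trace from (congrFun hD g⁻¹).symm]
    rw [h4, Matrix.mul_smul, Matrix.mul_one, Matrix.trace_smul, smul_eq_mul]
    refine mul_ne_zero hc0 ?_
    have h6 := trace_MM (U := U) X D (1 : N)
    rw [M_one D hX, hD] at h6
    change (ee U D).trace ≠ 0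
    rw [h6]
    exact h0
  apply h5
  rw [← h2, h3, Matrix.trace_zero]

/-- E3s -/
theorem psi_surj (h : BN p P U N)
    (hX : Iso ((TT P N).subgroupOf N) (AutUN U N) gc (fun a b r => (hc U N a b r : ℂ)) X Y)
    {ψ : N → ℂ} (hψ : ψ ∈ Irr N) : ∃ θ ∈ Irr K, psi U X θ = ψ := by
  by_contra hno
  push Not at hno
  have h1 : ∀ (d : ℕ) (D : K →* Matrix (Fin d) (Fin d) ℂ), (fun g => (D g).trace) ∈ Irr K →
      ∑ n : N, ψ n⁻¹ • MM U X D n = 0 := by
    intro d D hD
    obtain ⟨R⟩ := h.exists_rho hX D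
    have h2 : ∑ n : N, ψ n⁻¹ • R.ρ n = 0 := by
      by_cases hm : R.m = 0
      · ext i
        exact absurd i.2 (by omega)
      · have h3 := h.rho_irr hX hD R hm
        refine ext_zero R.ρ h3 ψ (Irr.isClass hψ) ?_
        refine B_irr_ne hψ h3 fun e => hno _ hD ?_
        rw [e]
        exact (funext fun n => R.trace h n).symm
    have h4 : ∀ n : N, MM U X D n = R.A * R.ρ n * R.B := by
      intro n
      rw [R.eq]
      calc MM U X D n = ee U D * MM U X D n * ee U D := by rw [(h.e_M D X n).1, (h.e_M D X n).2]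
        _ = _ := by rw [← R.AB]; simp only [Matrix.mul_assoc]
    have h5 : ∑ n : N, ψ n⁻¹ • MM U X D n = R.A * (∑ n : N, ψ n⁻¹ • R.ρ n) * R.B := by
      rw [Matrix.mul_sum, Matrix.sum_mul]
      refine Finset.sum_congr rfl fun n _ => ?_
      rw [h4, Matrix.mul_smul, Matrix.smul_mul]
    rw [h5, h2, Matrix.mul_zero, Matrix.zero_mul]
  let F : K → ℂ := fun g => ∑ r : N, (∑ n : N, ψ n⁻¹ * X n r) * tf U (r : K) g
  have hF : F = 0 := by
    refine ext_complete F fun d D hD => ?_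
    have h2 : ext D F = ∑ n : N, ψ n⁻¹ • MM U X D n := by
      change ext D (fun g => ∑ r : N, (∑ n : N, ψ n⁻¹ * X n r) * tf U (r : K) g) = _
      rw [ext_sum]
      unfold MM
      simp only [Finset.sum_smul, Finset.smul_sum, smul_smul]
      rw [Finset.sum_comm]
    rw [← ext_eq, h2]
    exact h1 d D hD
  have h3 : ∀ r : N, ∑ n : N, ψ n⁻¹ * X n r = 0 := by
    intro r
    have h4 := congrFun hF (r : K)
    change ∑ r' : N, (∑ n : N, ψ n⁻¹ * X n r') * tf U (r' : K) (r : K) = 0 at h4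
    have h5 := h.sum_tR (R := ℂ) (fun r => ∑ n : N, ψ n⁻¹ * X n r) (r : K) r (dc_refl _)
    rw [Finset.sum_congr rfl fun r' _ => by rw [tf_eq], h5] at h4
    rcases mul_eq_zero.1 h4 with h6 | h6
    · exact h6
    · exact absurd h6 (inv_ne_zero (Nat.cast_ne_zero.mpr Nat.card_pos.ne'))
  obtain ⟨m, hm0, hm⟩ := irr_one hψ
  have h4 : ψ 1 = ∑ r : N, (∑ n : N, ψ n⁻¹ * X n r) * Y r 1 := by
    simp only [Finset.sum_mul]
    rw [Finset.sum_comm]
    have h5 : ∀ n : N, ∑ r : N, ψ n⁻¹ * X n r * Y r 1 = ψ n⁻¹ * if n = 1 then 1 else 0 := by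
      intro n
      rw [← hX.left n 1, Finset.mul_sum]
      exact Finset.sum_congr rfl fun r _ => mul_assoc _ _ _
    rw [Finset.sum_congr rfl fun n _ => h5 n]
    simp
  rw [Finset.sum_congr rfl fun r _ => by rw [h3 r, zero_mul], Finset.sum_const_zero, hm] at h4
  have : m = 0 := by exact_mod_cast h4
  omega

end Pool.Agent.Helper24.TD
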